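import Pool.Agent.BTL.Stmts

/-!
Squad BTL, modules `shell`, `shellall`: sums over dyadic shells
-/

set_option autoImplicit false
set_option linter.unusedVariables false

open MeasureTheory Filter Topology

namespace Pool.Agent.BTL.H99

open Pool.Agent.BTL

theorem ln_nonneg (x : ℤ × ℤ) : 0 ≤ ln x := Real.sqrt_nonneg _

theorem shell : S_shell := by
  intro p hp hp2
  set ρ : ℝ := (2 : ℝ) ^ (2 - p) with hρ
  have hρ1 : 1 < ρ := Real.one_lt_rpow (by norm_num) (by linarith)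
  have hρ0 : 0 < ρ := by linarith
  have hC : 1 ≤ 4 * (ρ / (ρ - 1)) := by
    have : 1 ≤ ρ / (ρ - 1) := by
      rw [le_div_iff₀ (by linarith)]
      linarith
    linarith
  refine ⟨4 * (ρ / (ρ - 1)), hC, ?_⟩
  intro S κ N r0 hκ hr0 hN hS hcard
  have hNr : 1 ≤ N / r0 := by rw [le_div_iff₀ hr0]; linarith
  obtain ⟨k, hk1, hk2⟩ := exists_nat_pow_near hNr (by norm_num : (1 : ℝ) < 2)
  have hex : ∀ x ∈ S, ∃ i : ℕ, (2 : ℝ) ^ i ≤ ln x / r0 ∧ ln x / r0 < 2 ^ (i + 1) := by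
    intro x hx
    refine exists_nat_pow_near ?_ (by norm_num)
    rw [le_div_iff₀ hr0, one_mul]
    exact (hS x hx).1
  choose! f hf1 hf2 using hex
  have hmaps : ∀ x ∈ S, f x ∈ Finset.range (k + 1) := by
    intro x hx
    rw [Finset.mem_range]
    by_contra hlt
    have h1 : k + 1 ≤ f x := by omega
    have h2 : (2 : ℝ) ^ (k + 1) ≤ 2 ^ f x := pow_le_pow_right₀ (by norm_num) h1
    have h3 : ln x / r0 ≤ N / r0 := div_le_div_of_nonneg_right (hS x hx).2 hr0.le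
    linarith [hf1 x hx]
  rw [← Finset.sum_fiberwise_of_maps_to hmaps]
  have hin : ∀ i ∈ Finset.range (k + 1), ∑ x ∈ S with f x = i, ln x ^ (-p) ≤
      4 * κ * r0 ^ (2 - p) * ρ ^ i := by
    intro i _
    have hpos : (0 : ℝ) < 2 ^ i * r0 := by positivity
    have h1 : ∑ x ∈ S with f x = i, ln x ^ (-p) ≤
        ∑ x ∈ S with f x = i, (2 ^ i * r0) ^ (-p) := by
      refine Finset.sum_le_sum fun x hx => ?_
      rw [Finset.mem_filter] at hx
      have h2 := hf1 x hx.1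
      rw [hx.2, le_div_iff₀ hr0] at h2
      exact Real.rpow_le_rpow_of_nonpos hpos h2 (by linarith)
    rw [Finset.sum_const, nsmul_eq_mul] at h1
    have h3 : ((S.filter fun x => f x = i).card : ℝ) ≤ κ * (2 ^ (i + 1) * r0) ^ 2 := by
      refine hcard _ ?_ _ (Finset.filter_subset _ _) ?_
      · have : (1 : ℝ) ≤ 2 ^ (i + 1) := one_le_pow₀ (by norm_num)
        nlinarith
      · intro x hx
        rw [Finset.mem_filter] at hx
        have h2 := hf2 x hx.1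
        rw [hx.2, div_lt_iff₀ hr0] at h2
        exact h2.le
    have h4 : (2 ^ i * r0 : ℝ) ^ (-p) * (2 ^ i * r0) ^ 2 = r0 ^ (2 - p) * ρ ^ i := by
      have e1 : ((2 : ℝ) ^ i * r0) ^ 2 = (2 ^ i * r0) ^ (2 : ℝ) := (Real.rpow_two _).symm
      rw [e1, ← Real.rpow_add hpos, Real.mul_rpow (by positivity) hr0.le, hρ,
        ← Real.rpow_natCast ((2 : ℝ) ^ (2 - p)), ← Real.rpow_mul (by norm_num),
        ← Real.rpow_natCast 2 i, ← Real.rpow_mul (by norm_num)]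
      rw [show -p + 2 = 2 - p by ring, mul_comm ((i : ℝ)) (2 - p)]
      ring
    calc ∑ x ∈ S with f x = i, ln x ^ (-p)
        ≤ ((S.filter fun x => f x = i).card : ℝ) * (2 ^ i * r0) ^ (-p) := h1
      _ ≤ κ * (2 ^ (i + 1) * r0) ^ 2 * (2 ^ i * r0) ^ (-p) :=
          mul_le_mul_of_nonneg_right h3 (Real.rpow_nonneg hpos.le _)
      _ = 4 * κ * ((2 ^ i * r0 : ℝ) ^ (-p) * (2 ^ i * r0) ^ 2) := by ring
      _ = 4 * κ * r0 ^ (2 - p) * ρ ^ i := by rw [h4]; ring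
  refine (Finset.sum_le_sum hin).trans ?_
  rw [← Finset.mul_sum, geom_sum_eq hρ1.ne']
  have h5 : (ρ ^ (k + 1) - 1) / (ρ - 1) ≤ ρ / (ρ - 1) * ρ ^ k := by
    rw [div_mul_eq_mul_div, div_le_div_iff_of_pos_right (by linarith), pow_succ]
    linarith [mul_comm ρ (ρ ^ k)]
  have h6 : r0 ^ (2 - p) * ρ ^ k ≤ N ^ (2 - p) := by
    have e : r0 ^ (2 - p) * ρ ^ k = (2 ^ k * r0) ^ (2 - p) := by
      rw [Real.mul_rpow (by positivity) hr0.le, hρ, ← Real.rpow_natCast ((2 : ℝ) ^ (2 - p)),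
        ← Real.rpow_mul (by norm_num), ← Real.rpow_natCast 2 k, ← Real.rpow_mul (by norm_num),
        mul_comm ((k : ℝ)) (2 - p)]
      ring
    rw [e]
    refine Real.rpow_le_rpow (by positivity) ?_ (by linarith)
    rwa [le_div_iff₀ hr0] at hk1
  calc 4 * κ * r0 ^ (2 - p) * ((ρ ^ (k + 1) - 1) / (ρ - 1))
      ≤ 4 * κ * r0 ^ (2 - p) * (ρ / (ρ - 1) * ρ ^ k) := by
        refine mul_le_mul_of_nonneg_left h5 ?_
        have := Real.rpow_nonneg hr0.le (2 - p)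
        positivity
    _ = 4 * (ρ / (ρ - 1)) * κ * (r0 ^ (2 - p) * ρ ^ k) := by ring
    _ ≤ 4 * (ρ / (ρ - 1)) * κ * N ^ (2 - p) := by
        refine mul_le_mul_of_nonneg_left h6 ?_
        have : 0 ≤ 4 * (ρ / (ρ - 1)) := by linarith
        exact mul_nonneg this hκ

theorem abs_le_ln (x : ℤ × ℤ) : |(x.1 : ℝ)| ≤ ln x ∧ |(x.2 : ℝ)| ≤ ln x := by
  have h : ln x = Real.sqrt ((x.1 : ℝ) ^ 2 + (x.2 : ℝ) ^ 2) := rfl
  rw [h]
  constructor
  · refine Real.abs_le_sqrt ?_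
    nlinarith [sq_nonneg (x.2 : ℝ)]
  · refine Real.abs_le_sqrt ?_
    nlinarith [sq_nonneg (x.1 : ℝ)]

theorem card_ln_le : S_card_ln_le := by
  intro S N hN hS
  have hfl : (0 : ℤ) ≤ ⌊N⌋ := Int.floor_nonneg.mpr (by linarith)
  have hsub : S ⊆ Finset.Icc (-⌊N⌋) ⌊N⌋ ×ˢ Finset.Icc (-⌊N⌋) ⌊N⌋ := by
    intro x hx
    have h1 := abs_le_ln x
    have h2 := hS x hx
    rw [Finset.mem_product, Finset.mem_Icc, Finset.mem_Icc]
    have key : ∀ a : ℤ, |(a : ℝ)| ≤ N → -⌊N⌋ ≤ a ∧ a ≤ ⌊N⌋ := by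
      intro a ha
      rw [abs_le] at ha
      constructor
      · have : -a ≤ ⌊N⌋ := Int.le_floor.mpr (by push_cast; linarith [ha.1])
        omega
      · exact Int.le_floor.mpr ha.2
    exact ⟨key _ (h1.1.trans h2), key _ (h1.2.trans h2)⟩
  have hc := Finset.card_le_card hsub
  rw [Finset.card_product, Int.card_Icc] at hc
  have hc' : (S.card : ℝ) ≤ (((⌊N⌋ + 1 - -⌊N⌋).toNat : ℕ) : ℝ) *
      (((⌊N⌋ + 1 - -⌊N⌋).toNat : ℕ) : ℝ) := by exact_mod_cast hc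
  have e : (((⌊N⌋ + 1 - -⌊N⌋).toNat : ℕ) : ℝ) = 2 * (⌊N⌋ : ℝ) + 1 := by
    have h3 : ((⌊N⌋ + 1 - -⌊N⌋).toNat : ℤ) = 2 * ⌊N⌋ + 1 := by
      rw [Int.toNat_of_nonneg (by omega)]; ring
    have h4 : (((⌊N⌋ + 1 - -⌊N⌋).toNat : ℤ) : ℝ) = ((2 * ⌊N⌋ + 1 : ℤ) : ℝ) := by rw [h3]
    push_cast at h4
    exact h4
  rw [e] at hc'
  have hfn : (⌊N⌋ : ℝ) ≤ N := Int.floor_le N
  have hf0 : (0 : ℝ) ≤ (⌊N⌋ : ℝ) := by exact_mod_cast hfl
  nlinarith

theorem one_le_ln {x : ℤ × ℤ} (hx : x ≠ 0) : 1 ≤ ln x := by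
  have h : ln x = Real.sqrt ((x.1 : ℝ) ^ 2 + (x.2 : ℝ) ^ 2) := rfl
  rw [h, Real.one_le_sqrt]
  have h1 : (1 : ℤ) ≤ x.1 ^ 2 + x.2 ^ 2 := by
    have h2 : x.1 ≠ 0 ∨ x.2 ≠ 0 := by
      by_contra hh
      rw [not_or, not_not, not_not] at hh
      exact hx (Prod.ext hh.1 hh.2)
    rcases h2 with h2 | h2
    · have := sq_nonneg x.2
      have h3 : 0 < x.1 ^ 2 := by positivity
      omega
    · have := sq_nonneg x.1
      have h3 : 0 < x.2 ^ 2 := by positivity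
      omega
  exact_mod_cast h1

theorem shell_all (hS : S_shell) : S_shell_all := by
  intro p hp hp2
  obtain ⟨C, hC, h⟩ := hS p hp hp2
  refine ⟨C * 9, by linarith, ?_⟩
  intro S N hN hx
  rcases S.eq_empty_or_nonempty with hE | ⟨x0, hx0⟩
  · subst hE
    rw [Finset.sum_empty]
    have := Real.rpow_nonneg hN (2 - p)
    positivity
  · have h1N : 1 ≤ N := (one_le_ln (hx x0 hx0).1).trans (hx x0 hx0).2
    refine h S 9 N 1 (by norm_num) one_pos h1N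
      (fun x hxs => ⟨one_le_ln (hx x hxs).1, (hx x hxs).2⟩) ?_
    intro r hr S' _ hS'
    exact card_ln_le S' r hr hS'

end Pool.Agent.BTL.H99
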